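import Pool.Agent.H57.QZ.Assemble
import Pool.Agent.H44.NQ.NineFinal
import Pool.Agent.H42.NQ.TwentyOne

/-!
# The values `Q(6m+3)`

`Q n` is the largest number of pairwise disjoint patterns of `n` nonattacking queens on the
`n × n` board (`Pool.Agent.H44.NQ.IsPattern`, `Packs`, `Q`).

`Q(9) = 7`, and `Q(n) = n` for every `n = 6 m + 3 ≥ 15`.
-/

set_option autoImplicit false

namespace Pool.Agent.Results.MP_a05606_co.AllValues

open Pool.Agent.H44.NQ

theorem result : Q 9 = 7 ∧ ∀ m : ℕ, 2 ≤ m → Q (6 * m + 3) = 6 * m + 3 :=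
  ⟨q_nine, fun m hm => Pool.Agent.H57.QZ.q_all Pool.Agent.H42.NQ.q21 m hm⟩

end Pool.Agent.Results.MP_a05606_co.AllValues
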